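import Pool.Agent.H36.MHD.Limit

/-! Limits of smooth approximate solutions are weak solutions: function classes. -/

open MeasureTheory Set Filter Topology
open scoped ContDiff ENNReal

noncomputable section

namespace H36.MHD

section main

variable {Ω : Set V3} {T : ℝ} {K : Set V3} {ρn pn : ℕ → ℝ × V3 → ℝ}
  {un fn En : ℕ → ℝ × V3 → V3} {ρ : ℝ × V3 → ℝ} {u f : ℝ × V3 → V3}
  {G : ℝ × V3 → Fin 3 → Fin 3 → ℝ} {C : ℝ}

lemma isFinite_om (hb : Bornology.IsBounded Ω) : IsFiniteMeasure (volume.restrict Ω) :=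
  ⟨by rw [Measure.restrict_apply_univ]; exact om_fin hb⟩

lemma isFinite_cyl (hb : Bornology.IsBounded Ω) : IsFiniteMeasure (volume.restrict (cyl Ω T)) :=
  ⟨by rw [Measure.restrict_apply_univ]; exact cyl_fin hb⟩

variable (h : StageSeq Ω T K ρn pn un fn En ρ u f G C)

include h

lemma lim_bdd_ρ : ∀ z ∈ Icc 0 T ×ˢ Ω, |ρ z| ≤ C := fun z hz =>
  le_of_tendsto (h.lim_ρ z hz).abs (Eventually.of_forall fun n => h.bdd_ρ n z hz)

lemma lim_bdd_u : ∀ z ∈ Icc 0 T ×ˢ Ω, ∀ i, |u z i| ≤ C := fun z hz i =>
  le_of_tendsto (h.lim_u z hz i).abs (Eventually.of_forall fun n => h.bdd_u n z hz i)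

lemma lim_bdd_G : ∀ z ∈ Icc 0 T ×ˢ Ω, ∀ i j, |G z i j| ≤ C := fun z hz i j =>
  le_of_tendsto (h.lim_du z hz i j).abs (Eventually.of_forall fun n => h.bdd_du n z hz i j)

lemma density_class (hΩ : IsOpen Ω) (hb : Bornology.IsBounded Ω) :
    DensityClass Ω T (fun t x => ρ (t, x)) := by
  have := isFinite_om hb
  refine ⟨h.cont_ρ.measurable, ⟨C, fun t ht => ?_⟩, fun p hp t₀ ht₀ => ?_⟩
  · filter_upwards [ae_restrict_mem hΩ.measurableSet] with x hx using lim_bdd_ρ h (t, x) ⟨ht, hx⟩
  · have h0 : ∫ x in Ω, |ρ (t₀, x) - ρ (t₀, x)| ^ p = 0 := by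
      simp [Real.zero_rpow (by linarith : p ≠ 0)]
    suffices hs : Tendsto (fun t => ∫ x in Ω, |ρ (t, x) - ρ (t₀, x)| ^ p) (𝓝[Icc 0 T] t₀)
        (𝓝 (∫ x in Ω, |ρ (t₀, x) - ρ (t₀, x)| ^ p)) by
      rwa [h0] at hs
    refine tendsto_integral_filter_of_dominated_convergence (fun _ => (C + C) ^ p) ?_ ?_ ?_ ?_
    · refine Eventually.of_forall fun t => ?_
      have : Continuous (fun x : V3 => |ρ (t, x) - ρ (t₀, x)| ^ p) := by
        refine Continuous.rpow_const ?_ (fun _ => Or.inr (by linarith))
        exact ((h.cont_ρ.comp (continuous_const.prodMk continuous_id)).sub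
          (h.cont_ρ.comp (continuous_const.prodMk continuous_id))).abs
      exact this.aestronglyMeasurable
    · filter_upwards [self_mem_nhdsWithin] with t ht
      filter_upwards [ae_restrict_mem hΩ.measurableSet] with x hx
      rw [Real.norm_of_nonneg (by positivity)]
      refine Real.rpow_le_rpow (abs_nonneg _) ?_ (by linarith)
      exact (abs_sub _ _).trans (add_le_add (lim_bdd_ρ h (t, x) ⟨ht, hx⟩)
        (lim_bdd_ρ h (t₀, x) ⟨ht₀, hx⟩))
    · exact integrable_const _
    · refine Eventually.of_forall fun x => ?_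
      have : Continuous (fun t : ℝ => |ρ (t, x) - ρ (t₀, x)| ^ p) := by
        refine Continuous.rpow_const ?_ (fun _ => Or.inr (by linarith))
        exact ((h.cont_ρ.comp (continuous_id.prodMk continuous_const)).sub
          continuous_const).abs
      exact this.continuousWithinAt

/-- slices of the approximate velocities -/
lemma slice_props (hK : IsCompact K) (n : ℕ) (t : ℝ) :
    (∀ i, ContDiff ℝ ∞ (fun x : V3 => un n (t, x) i)) ∧
    HasCompactSupport (fun x : V3 => un n (t, x)) ∧
    tsupport (fun x : V3 => un n (t, x)) ⊆ K ∧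
    (∀ i, tsupport (fun x : V3 => un n (t, x) i) ⊆ K) ∧
    (∀ i, HasCompactSupport (fun x : V3 => un n (t, x) i)) ∧
    ∀ i j x, pd j (fun x : V3 => un n (t, x) i) x = dx j (fun y => un n y i) (t, x) := by
  have s1 : tsupport (fun x : V3 => un n (t, x)) ⊆ K :=
    closure_minimal (fun x hx => by
      by_contra hx'
      exact hx (h.supp n (t, x) hx')) hK.isClosed
  have s2 : ∀ i, tsupport (fun x : V3 => un n (t, x) i) ⊆ K := fun i =>
    closure_minimal (fun x hx => by
      by_contra hx'
      apply hx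
      show un n (t, x) i = 0
      rw [h.supp n (t, x) hx']; rfl) hK.isClosed
  refine ⟨fun i => ((h.stage n).smooth_u i).comp (contDiff_prodMk_right t),
    hK.of_isClosed_subset (isClosed_tsupport _) s1, s1, s2,
    fun i => hK.of_isClosed_subset (isClosed_tsupport _) (s2 i),
    fun i j x => slice_fderiv ((h.stage n).smooth_u i) t x j⟩

lemma bc_slice_u {t : ℝ} (ht : t ∈ Icc 0 T) (i : Fin 3) :
    BC Ω (fun n x => un n (t, x) i) (fun x => u (t, x) i) :=
  ⟨fun n => (((h.stage n).smooth_u i).continuous.comp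
      (continuous_const.prodMk continuous_id)).aestronglyMeasurable,
    ⟨C, fun n x hx => h.bdd_u n (t, x) ⟨ht, hx⟩ i⟩, fun x hx => h.lim_u (t, x) ⟨ht, hx⟩ i⟩

lemma bc_slice_du {t : ℝ} (ht : t ∈ Icc 0 T) (i j : Fin 3) :
    BC Ω (fun n x => dx j (fun y => un n y i) (t, x)) (fun x => G (t, x) i j) :=
  ⟨fun n => ((smooth_dx ((h.stage n).smooth_u i) j).continuous.comp
      (continuous_const.prodMk continuous_id)).aestronglyMeasurable,
    ⟨C, fun n x hx => h.bdd_du n (t, x) ⟨ht, hx⟩ i j⟩, fun x hx => h.lim_du (t, x) ⟨ht, hx⟩ i j⟩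

lemma slice_inH (hΩ : IsOpen Ω) (hb : Bornology.IsBounded Ω) (hK : IsCompact K) (hKΩ : K ⊆ Ω)
    {t : ℝ} (ht : t ∈ Icc 0 T) : InH Ω (fun x => u (t, x)) := by
  have := isFinite_om hb
  refine ⟨?_, fun ψ hψ => ?_⟩
  · refine MemLp.of_bound (h.cont_u.comp
      (continuous_const.prodMk continuous_id)).aestronglyMeasurable C ?_
    filter_upwards [ae_restrict_mem hΩ.measurableSet] with x hx
    have hC : 0 ≤ C := (abs_nonneg _).trans (lim_bdd_u h (t, x) ⟨ht, hx⟩ 0)
    exact (pi_norm_le_iff_of_nonneg hC).2 fun i => lim_bdd_u h (t, x) ⟨ht, hx⟩ i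
  · have c1 : ∀ i, BC Ω (fun _ => pd i ψ) (pd i ψ) := fun i =>
      BC.const (smooth_pd hψ i).continuous.aestronglyMeasurable
        (bdd_on hb (smooth_pd hψ i).continuous)
    have key := (BC.sum fun i => (bc_slice_u h ht i).mul (c1 i)).tendsto hΩ.measurableSet
      (om_fin hb)
    have z : ∀ n, ∫ x in Ω, ∑ i, un n (t, x) i * pd i ψ x = 0 := by
      intro n
      obtain ⟨p1, p2, p3, p4, p5, p6⟩ := slice_props h hK n t
      have e : ∀ x ∈ Ω, ∑ i, un n (t, x) i * pd i ψ x
          = ∑ i, pd i (fun y => ψ y * un n (t, y) i) x := by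
        intro x _
        have hd := h.div_free n (t, x) ht
        simp only [fun i => pd_mul hψ (p1 i) i x, p6]
        simp only [Fin.sum_univ_three] at hd ⊢
        linear_combination (-ψ x) * hd
      rw [setIntegral_congr_fun hΩ.measurableSet e]
      have sm : ∀ i, ContDiff ℝ ∞ (fun y => ψ y * un n (t, y) i) := fun i => hψ.mul (p1 i)
      have ts : ∀ i, tsupport (fun y => ψ y * un n (t, y) i) ⊆ K := fun i =>
        (tsupport_mul_subset_right (f := ψ) (g := fun y => un n (t, y) i)).trans (p4 i)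
      have cs : ∀ i, HasCompactSupport (fun y => ψ y * un n (t, y) i) := fun i =>
        hK.of_isClosed_subset (isClosed_tsupport _) (ts i)
      have ci : ∀ i, Integrable (pd i (fun y => ψ y * un n (t, y) i)) := fun i =>
        (smooth_pd (sm i) i).continuous.integrable_of_hasCompactSupport
          ((cs i).mono' ((subset_tsupport _).trans (tsupport_pd_subset _ _)))
      rw [integral_finsetSum _ fun i _ => (ci i).integrableOn]
      exact Finset.sum_eq_zero fun i _ => int_pd_on (sm i) (cs i) ((ts i).trans hKΩ) i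
    simp only [z] at key
    exact tendsto_nhds_unique key tendsto_const_nhds

lemma slice_inV (hΩ : IsOpen Ω) (hb : Bornology.IsBounded Ω) (hK : IsCompact K) (hKΩ : K ⊆ Ω)
    {t : ℝ} (ht : t ∈ Icc 0 T) : InV Ω (fun x => u (t, x)) (fun x => G (t, x)) := by
  have := isFinite_om hb
  refine ⟨⟨⟨(slice_inH h hΩ hb hK hKΩ ht).1, ?_, ?_⟩, ?_⟩, ?_⟩
  · refine MemLp.of_bound (h.cont_G.comp
      (continuous_const.prodMk continuous_id)).aestronglyMeasurable C ?_
    filter_upwards [ae_restrict_mem hΩ.measurableSet] with x hx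
    have hC : 0 ≤ C := (abs_nonneg _).trans (lim_bdd_u h (t, x) ⟨ht, hx⟩ 0)
    exact (pi_norm_le_iff_of_nonneg hC).2 fun i =>
      (pi_norm_le_iff_of_nonneg hC).2 fun j => lim_bdd_G h (t, x) ⟨ht, hx⟩ i j
  · intro ψ hψ hc hs i j
    have hcc : ∀ {g : V3 → ℝ}, Continuous g → BC Ω (fun _ => g) g := fun {g} hg =>
      BC.const hg.aestronglyMeasurable (bdd_on hb hg)
    have k1 := ((bc_slice_u h ht i).mul (hcc (smooth_pd hψ j).continuous)).tendsto
      hΩ.measurableSet (om_fin hb)
    have k2 := ((bc_slice_du h ht i j).mul (hcc hψ.continuous)).tendsto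
      hΩ.measurableSet (om_fin hb)
    have z : ∀ n, ∫ x in Ω, un n (t, x) i * pd j ψ x
        = - ∫ x in Ω, dx j (fun y => un n y i) (t, x) * ψ x := by
      intro n
      obtain ⟨p1, p2, p3, p4, p5, p6⟩ := slice_props h hK n t
      have sm : ContDiff ℝ ∞ (fun y => un n (t, y) i * ψ y) := (p1 i).mul hψ
      have ts : tsupport (fun y => un n (t, y) i * ψ y) ⊆ tsupport ψ :=
        tsupport_mul_subset_right (f := fun y => un n (t, y) i) (g := ψ)
      have cs : HasCompactSupport (fun y => un n (t, y) i * ψ y) :=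
        hc.mono' ((subset_tsupport _).trans ts)
      have e := int_pd_on sm cs (ts.trans hs) j
      have i1 : Integrable (fun x => un n (t, x) i * pd j ψ x) := by
        refine ((p1 i).continuous.mul (smooth_pd hψ j).continuous).integrable_of_hasCompactSupport ?_
        exact HasCompactSupport.mul_left
          (hc.mono' ((subset_tsupport _).trans (tsupport_pd_subset _ _)))
      have i2 : Integrable (fun x => dx j (fun y => un n y i) (t, x) * ψ x) := by
        refine (((smooth_dx ((h.stage n).smooth_u i) j).continuous.comp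
          (continuous_const.prodMk continuous_id)).mul
          hψ.continuous).integrable_of_hasCompactSupport ?_
        exact HasCompactSupport.mul_left hc
      have e2 : ∫ x in Ω, (un n (t, x) i * pd j ψ x + dx j (fun y => un n y i) (t, x) * ψ x) = 0 := by
        rw [← e]
        refine setIntegral_congr_fun hΩ.measurableSet fun x _ => ?_
        show _ = pd j (fun y => un n (t, y) i * ψ y) x
        rw [pd_mul (p1 i) hψ, p6]
        ring
      rw [integral_add i1.integrableOn i2.integrableOn] at e2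
      linarith
    simp only [z] at k1
    exact tendsto_nhds_unique k1 k2.neg
  · refine ⟨fun n x => un n (t, x), fun n => ?_, fun i => ?_, fun i j => ?_⟩
    · obtain ⟨p1, p2, p3, -, -, -⟩ := slice_props h hK n t
      exact ⟨contDiff_pi.2 p1, p2, p3.trans hKΩ⟩
    · have hcc : BC Ω (fun _ x => u (t, x) i) (fun x => u (t, x) i) :=
        BC.const ((continuous_apply i).comp (h.cont_u.comp
          (continuous_const.prodMk continuous_id))).aestronglyMeasurable (bc_slice_u h ht i).bound
      have b := (bc_slice_u h ht i).sub hcc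
      have key := (b.mul b).tendsto hΩ.measurableSet (om_fin hb)
      simpa [sq] using key
    · have hcc : BC Ω (fun _ x => G (t, x) i j) (fun x => G (t, x) i j) :=
        BC.const ((continuous_apply j).comp ((continuous_apply i).comp (h.cont_G.comp
          (continuous_const.prodMk continuous_id)))).aestronglyMeasurable (bc_slice_du h ht i j).bound
      have b := (bc_slice_du h ht i j).sub hcc
      have key := (b.mul b).tendsto hΩ.measurableSet (om_fin hb)
      have e : ∀ n x, pd j (fun y => un n (t, y) i) x = dx j (fun y => un n y i) (t, x) :=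
        fun n x => (slice_props h hK n t).2.2.2.2.2 i j x
      simp only [e]
      simpa [sq] using key
  · filter_upwards [ae_restrict_mem hΩ.measurableSet] with x hx
    have l : Tendsto (fun n => ∑ i, dx i (fun y => un n y i) (t, x)) atTop
        (𝓝 (∑ i, G (t, x) i i)) := tendsto_finsetSum _ fun i _ => h.lim_du (t, x) ⟨ht, hx⟩ i i
    simp only [fun n => h.div_free n (t, x) ht] at l
    exact tendsto_nhds_unique l tendsto_const_nhds

lemma field_class (hΩ : IsOpen Ω) (hb : Bornology.IsBounded Ω) (hK : IsCompact K) (hKΩ : K ⊆ Ω) :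
    FieldClass (InV Ω) Ω T (fun t x => u (t, x)) (fun t x => G (t, x)) := by
  have := isFinite_om hb
  have := isFinite_cyl (T := T) hb
  have hcm : MeasurableSet (cyl Ω T) := measurableSet_Ioo.prod hΩ.measurableSet
  refine ⟨h.cont_u.measurable, h.cont_G.measurable, ?_, ?_, ?_,
    fun t ht => slice_inH h hΩ hb hK hKΩ ht, ?_, ?_⟩
  · refine MemLp.of_bound h.cont_u.aestronglyMeasurable C ?_
    filter_upwards [ae_restrict_mem hcm] with z hz
    have hz' := cyl_sub hz
    have hC : 0 ≤ C := (abs_nonneg _).trans (lim_bdd_u h z hz' 0)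
    exact (pi_norm_le_iff_of_nonneg hC).2 fun i => lim_bdd_u h z hz' i
  · refine MemLp.of_bound h.cont_G.aestronglyMeasurable C ?_
    filter_upwards [ae_restrict_mem hcm] with z hz
    have hz' := cyl_sub hz
    have hC : 0 ≤ C := (abs_nonneg _).trans (lim_bdd_u h z hz' 0)
    exact (pi_norm_le_iff_of_nonneg hC).2 fun i =>
      (pi_norm_le_iff_of_nonneg hC).2 fun j => lim_bdd_G h z hz' i j
  · filter_upwards [ae_restrict_mem measurableSet_Ioo] with t ht
    exact slice_inV h hΩ hb hK hKΩ (Ioo_subset_Icc_self ht)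
  · refine ⟨∫ x in Ω, (3 * C ^ 2), fun t ht => ?_⟩
    have hcont : Continuous (fun x : V3 => dot (u (t, x)) (u (t, x))) := by
      unfold dot
      exact continuous_finsetSum _ fun i _ => ((continuous_apply i).comp (h.cont_u.comp
          (continuous_const.prodMk continuous_id))).mul ((continuous_apply i).comp (h.cont_u.comp
          (continuous_const.prodMk continuous_id)))
    have hbd : ∀ x ∈ Ω, dot (u (t, x)) (u (t, x)) ≤ 3 * C ^ 2 := by
      intro x hx
      have hi : ∀ i, u (t, x) i * u (t, x) i ≤ C ^ 2 := fun i => by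
        have := lim_bdd_u h (t, x) ⟨ht, hx⟩ i
        rw [← sq, ← sq_abs]
        exact pow_le_pow_left₀ (abs_nonneg _) this 2
      unfold dot
      rw [Fin.sum_univ_three]
      linarith [hi 0, hi 1, hi 2]
    have hnn : ∀ x, 0 ≤ dot (u (t, x)) (u (t, x)) := fun x => by
      unfold dot
      exact Finset.sum_nonneg fun i _ => mul_self_nonneg _
    refine setIntegral_mono_on ?_ (integrable_const _) hΩ.measurableSet hbd
    refine Integrable.of_bound hcont.aestronglyMeasurable (3 * C ^ 2) ?_
    filter_upwards [ae_restrict_mem hΩ.measurableSet] with x hx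
    rw [Real.norm_of_nonneg (hnn x)]
    exact hbd x hx
  · intro w hw
    have hw1 : Integrable w (volume.restrict Ω) := hw.integrable (by norm_num)
    have hwi : ∀ i, Integrable (fun x => w x i) (volume.restrict Ω) := fun i =>
      hw1.eval i
    intro t₀ ht₀
    refine tendsto_integral_filter_of_dominated_convergence (fun x => ∑ i, C * |w x i|) ?_ ?_ ?_ ?_
    · refine Eventually.of_forall fun t => ?_
      unfold dot
      refine Finset.aestronglyMeasurable_fun_sum _ fun i _ => ?_
      exact ((continuous_apply i).comp (h.cont_u.comp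
          (continuous_const.prodMk continuous_id))).aestronglyMeasurable.mul
          (hwi i).aestronglyMeasurable
    · filter_upwards [self_mem_nhdsWithin] with t ht
      filter_upwards [ae_restrict_mem hΩ.measurableSet] with x hx
      unfold dot
      refine (norm_sum_le _ _).trans (Finset.sum_le_sum fun i _ => ?_)
      rw [norm_mul]
      exact mul_le_mul_of_nonneg_right (lim_bdd_u h (t, x) ⟨ht, hx⟩ i) (norm_nonneg _)
    · exact integrable_finsetSum _ fun i _ => (hwi i).abs.const_mul C
    · refine Eventually.of_forall fun x => ?_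
      have : Continuous (fun t : ℝ => dot (u (t, x)) (w x)) := by
        unfold dot
        exact continuous_finsetSum _ fun i _ => ((continuous_apply i).comp (h.cont_u.comp
          (continuous_id.prodMk continuous_const))).mul continuous_const
      exact this.continuousWithinAt

end main

/-- The zero magnetic field is admissible. -/
lemma zero_field (Ω : Set V3) (T : ℝ) :
    FieldClass (InW Ω) Ω T (fun _ _ => 0) (fun _ _ _ _ => 0) := by
  have hH : InH Ω (fun _ => (0 : V3)) := ⟨MemLp.zero', fun ψ _ => by simp⟩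
  refine ⟨measurable_const, measurable_const, MemLp.zero', MemLp.zero', ?_, fun _ _ => hH,
    ⟨0, fun t _ => by simp [dot]⟩, fun w _ => by simp [dot]; exact continuousOn_const⟩
  refine Eventually.of_forall fun t => ⟨⟨MemLp.zero', MemLp.zero', ?_⟩, hH⟩
  intro ψ _ _ _ i j
  simp

/-- **Limit theorem.** Limits of smooth approximate solutions are weak solutions with zero
magnetic field. -/
theorem weak_of_limit {Ω : Set V3} (hΩ : IsOpen Ω) (hb : Bornology.IsBounded Ω) {T : ℝ}
    (hT : 0 < T) {K : Set V3} (hK : IsCompact K) (hKΩ : K ⊆ Ω)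
    {ρn pn : ℕ → ℝ × V3 → ℝ}
    {un fn En : ℕ → ℝ × V3 → V3} {ρ : ℝ × V3 → ℝ} {u f : ℝ × V3 → V3}
    {G : ℝ × V3 → Fin 3 → Fin 3 → ℝ} {C : ℝ}
    (h : StageSeq Ω T K ρn pn un fn En ρ u f G C)
    {ρ₀ : V3 → ℝ} (hρ₀ : Continuous ρ₀) (hpos : ∃ c, 0 < c ∧ ∀ x ∈ Ω, c ≤ ρ₀ x)
    (hinit : ∀ x ∈ Ω, ρ (0, x) = ρ₀ x) :
    IsWeakSolution Ω T (mkData Ω hΩ hb T ρ₀ hρ₀ hpos f h.cont_f)
      (fun t x => ρ (t, x)) (fun t x => u (t, x)) (fun _ _ => 0) := by
  refine ⟨fun t x => G (t, x), fun _ _ _ _ => 0, density_class h hΩ hb, ?_,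
    field_class h hΩ hb hK hKΩ, zero_field Ω T, limit_transport h hΩ hb hT,
    limit_momentum h hΩ hb hT ρ₀, ?_⟩
  · filter_upwards [ae_restrict_mem hΩ.measurableSet] with x hx using hinit x hx
  · intro φ _ _ _
    simp [mkData, dot, cross, curlOf]

end H36.MHD
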