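import Pool.Agent.H36.MHDDefs

/-! Calculus and integration by parts on `ℝ × V3`. -/

open MeasureTheory Set Filter Topology
open scoped ContDiff ENNReal

noncomputable section

namespace H36.MHD

lemma smooth_dx {g : ℝ × V3 → ℝ} (hg : ContDiff ℝ ∞ g) (j : Fin 3) : ContDiff ℝ ∞ (dx j g) := by
  unfold dx
  exact (hg.fderiv_right (m := ∞) (by simp)).clm_apply contDiff_const

lemma smooth_dt {g : ℝ × V3 → ℝ} (hg : ContDiff ℝ ∞ g) : ContDiff ℝ ∞ (dt g) := by
  unfold dt
  exact (hg.fderiv_right (m := ∞) (by simp)).clm_apply contDiff_const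

lemma smooth_diff {g : ℝ × V3 → ℝ} (hg : ContDiff ℝ ∞ g) (z : ℝ × V3) :
    DifferentiableAt ℝ g z := (hg.differentiable (by simp)) z

lemma dx_mul {g h : ℝ × V3 → ℝ} (hg : ContDiff ℝ ∞ g) (hh : ContDiff ℝ ∞ h) (j : Fin 3)
    (z : ℝ × V3) : dx j (fun y => g y * h y) z = g z * dx j h z + h z * dx j g z := by
  unfold dx
  rw [fderiv_fun_mul (smooth_diff hg z) (smooth_diff hh z)]
  simp

lemma dt_mul {g h : ℝ × V3 → ℝ} (hg : ContDiff ℝ ∞ g) (hh : ContDiff ℝ ∞ h)
    (z : ℝ × V3) : dt (fun y => g y * h y) z = g z * dt h z + h z * dt g z := by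
  unfold dt
  rw [fderiv_fun_mul (smooth_diff hg z) (smooth_diff hh z)]
  simp

lemma dx_sum {g : Fin 3 → ℝ × V3 → ℝ} (hg : ∀ i, ContDiff ℝ ∞ (g i)) (j : Fin 3)
    (z : ℝ × V3) : dx j (fun y => ∑ i, g i y) z = ∑ i, dx j (g i) z := by
  unfold dx
  rw [fderiv_fun_sum (fun i _ => smooth_diff (hg i) z)]
  simp

lemma dt_sum {g : Fin 3 → ℝ × V3 → ℝ} (hg : ∀ i, ContDiff ℝ ∞ (g i))
    (z : ℝ × V3) : dt (fun y => ∑ i, g i y) z = ∑ i, dt (g i) z := by
  unfold dt
  rw [fderiv_fun_sum (fun i _ => smooth_diff (hg i) z)]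
  simp

lemma dx_comm {g : ℝ × V3 → ℝ} (hg : ContDiff ℝ ∞ g) (i j : Fin 3) (z : ℝ × V3) :
    dx i (dx j g) z = dx j (dx i g) z := by
  have hs : IsSymmSndFDerivAt ℝ g z :=
    (hg.contDiffAt (x := z)).isSymmSndFDerivAt (by
      rw [minSmoothness_of_isRCLikeNormedField]
      exact WithTop.coe_le_coe.2 (le_top : (2 : ℕ∞) ≤ ⊤))
  have hd : DifferentiableAt ℝ (fderiv ℝ g) z :=
    ((hg.fderiv_right (m := ∞) (by simp)).differentiable (by simp)) z
  have h1 : ∀ v w : ℝ × V3, fderiv ℝ (fun y => fderiv ℝ g y v) z w = fderiv ℝ (fderiv ℝ g) z w v := by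
    intro v w
    rw [fderiv_clm_apply hd (differentiableAt_const _)]
    simp
  unfold dx
  rw [h1, h1]
  exact (hs.eq _ _)

lemma tsupport_dx_subset (g : ℝ × V3 → ℝ) (j : Fin 3) : tsupport (dx j g) ⊆ tsupport g := by
  refine closure_minimal ?_ (isClosed_tsupport g)
  intro z hz
  by_contra h
  apply hz
  unfold dx
  rw [show fderiv ℝ g z = 0 from by
    have : z ∉ tsupport (fderiv ℝ g) := fun h' => h (tsupport_fderiv_subset ℝ h')
    exact image_eq_zero_of_notMem_tsupport this]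
  simp

lemma tsupport_dt_subset (g : ℝ × V3 → ℝ) : tsupport (dt g) ⊆ tsupport g := by
  refine closure_minimal ?_ (isClosed_tsupport g)
  intro z hz
  by_contra h
  apply hz
  unfold dt
  rw [show fderiv ℝ g z = 0 from by
    have : z ∉ tsupport (fderiv ℝ g) := fun h' => h (tsupport_fderiv_subset ℝ h')
    exact image_eq_zero_of_notMem_tsupport this]
  simp

lemma eq_zero_of_notMem {g : ℝ × V3 → ℝ} {S : Set (ℝ × V3)} (hs : tsupport g ⊆ S) {z : ℝ × V3}
    (hz : z ∉ S) : g z = 0 := image_eq_zero_of_notMem_tsupport (fun h => hz (hs h))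

/-- Time slices of smooth functions. -/
lemma slice_fderiv {g : ℝ × V3 → ℝ} (hg : ContDiff ℝ ∞ g) (t : ℝ) (x : V3) (j : Fin 3) :
    fderiv ℝ (fun y : V3 => g (t, y)) x (Pi.single j 1) = dx j g (t, x) := by
  have h1 : HasFDerivAt (fun y : V3 => (t, y)) (ContinuousLinearMap.inr ℝ ℝ V3) x := by
    have := (hasFDerivAt_const t x).prodMk (hasFDerivAt_id (𝕜 := ℝ) x)
    convert! this using 1
  have h2 : HasFDerivAt (fun y : V3 => g (t, y))
      ((fderiv ℝ g (t, x)).comp (ContinuousLinearMap.inr ℝ ℝ V3)) x :=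
    (smooth_diff hg (t, x)).hasFDerivAt.comp x h1
  rw [h2.fderiv]
  simp [dx]

lemma slice_deriv {g : ℝ × V3 → ℝ} (hg : ContDiff ℝ ∞ g) (t : ℝ) (x : V3) :
    HasDerivAt (fun s : ℝ => g (s, x)) (dt g (t, x)) t := by
  have h1 : HasFDerivAt (fun s : ℝ => (s, x)) (ContinuousLinearMap.inl ℝ ℝ V3) t := by
    have := (hasFDerivAt_id (𝕜 := ℝ) t).prodMk (hasFDerivAt_const x t)
    convert! this using 1
  have h2 : HasFDerivAt (fun s : ℝ => g (s, x))
      ((fderiv ℝ g (t, x)).comp (ContinuousLinearMap.inl ℝ ℝ V3)) t :=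
    (smooth_diff hg (t, x)).hasFDerivAt.comp t h1
  have := h2.hasDerivAt
  simpa [dt] using this

lemma slice_compact {g : ℝ × V3 → ℝ} (hc : HasCompactSupport g) (t : ℝ) :
    HasCompactSupport (fun y : V3 => g (t, y)) := by
  refine HasCompactSupport.intro (K := Prod.snd '' tsupport g) (hc.isCompact.image continuous_snd) ?_
  intro x hx
  refine image_eq_zero_of_notMem_tsupport (fun h => hx ⟨(t, x), h, rfl⟩)

lemma slice_int_dx {g : ℝ × V3 → ℝ} (hg : ContDiff ℝ ∞ g) (hc : HasCompactSupport g)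
    (j : Fin 3) (t : ℝ) : ∫ x, dx j g (t, x) = 0 := by
  have hgt : ContDiff ℝ ∞ (fun y : V3 => g (t, y)) := hg.comp (contDiff_prodMk_right t)
  have hct := slice_compact hc t
  have hcont : Continuous (fun x : V3 => dx j g (t, x)) :=
    (smooth_dx hg j).continuous.comp (continuous_const.prodMk continuous_id)
  have hcs : HasCompactSupport (fun x : V3 => dx j g (t, x)) :=
    slice_compact (hc.mono' ((subset_tsupport _).trans (tsupport_dx_subset g j))) t
  have hint : Integrable (fun x : V3 => dx j g (t, x)) := hcont.integrable_of_hasCompactSupport hcs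
  have key := integral_mul_fderiv_eq_neg_fderiv_mul_of_integrable (μ := (volume : Measure V3))
    (f := fun _ : V3 => (1 : ℝ)) (g := fun y : V3 => g (t, y)) (v := Pi.single j 1)
    (by simp) (by simpa [slice_fderiv hg] using hint)
    (by simpa using hgt.continuous.integrable_of_hasCompactSupport hct)
    (fun x _ => differentiableAt_const _) (fun x _ => (hgt.differentiable (by simp)) x)
  simpa [slice_fderiv hg] using key

lemma cyl_eq_univ {Ω : Set V3} {T : ℝ} {g : ℝ × V3 → ℝ}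
    (hs : tsupport g ⊆ univ ×ˢ Ω) :
    ∫ z in cyl Ω T, g z = ∫ z in Ioo 0 T ×ˢ (univ : Set V3), g z := by
  refine (setIntegral_eq_of_subset_of_forall_sdiff_eq_zero
    (measurableSet_Ioo.prod MeasurableSet.univ) (prod_mono le_rfl (subset_univ _)) ?_).symm
  rintro z ⟨hz1, hz2⟩
  refine eq_zero_of_notMem hs (fun h => hz2 ⟨hz1.1, h.2⟩)

/-- Space integration by parts on the cylinder. -/
lemma int_dx {Ω : Set V3} {T : ℝ} {g : ℝ × V3 → ℝ} (hg : ContDiff ℝ ∞ g)
    (hc : HasCompactSupport g) (hs : tsupport g ⊆ univ ×ˢ Ω) (j : Fin 3) :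
    ∫ z in cyl Ω T, dx j g z = 0 := by
  rw [cyl_eq_univ ((tsupport_dx_subset g j).trans hs)]
  have hcs : HasCompactSupport (dx j g) :=
    hc.mono' ((subset_tsupport _).trans (tsupport_dx_subset g j))
  have hint : Integrable (dx j g) := (smooth_dx hg j).continuous.integrable_of_hasCompactSupport hcs
  rw [Measure.volume_eq_prod, setIntegral_prod _ hint.integrableOn]
  simp [slice_int_dx hg hc j]

/-- Time integration by parts on the cylinder. -/
lemma int_dt {Ω : Set V3} {T : ℝ} (hT : 0 < T) {g : ℝ × V3 → ℝ}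
    (hg : ContDiff ℝ ∞ g)
    (hc : HasCompactSupport g) (hs : tsupport g ⊆ Iio T ×ˢ Ω) :
    ∫ z in cyl Ω T, dt g z = - ∫ x in Ω, g (0, x) := by
  have hcs : HasCompactSupport (dt g) :=
    hc.mono' ((subset_tsupport _).trans (tsupport_dt_subset g))
  have hint : Integrable (dt g) := (smooth_dt hg).continuous.integrable_of_hasCompactSupport hcs
  have h1 : ∫ z in cyl Ω T, dt g z = ∫ x in Ω, ∫ t in Ioo 0 T, dt g (t, x) := by
    have hi : Integrable (dt g) ((volume.restrict (Ioo 0 T)).prod (volume.restrict Ω)) := by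
      rw [Measure.prod_restrict, ← Measure.volume_eq_prod]; exact hint.integrableOn
    rw [← integral_prod_symm _ hi, Measure.prod_restrict, ← Measure.volume_eq_prod]; rfl
  rw [h1, ← integral_neg]
  refine integral_congr_ae (Eventually.of_forall fun x => ?_)
  show ∫ t in Ioo 0 T, dt g (t, x) = - g (0, x)
  rw [← integral_Ioc_eq_integral_Ioo, ← intervalIntegral.integral_of_le hT.le]
  have hcont : Continuous (fun t : ℝ => dt g (t, x)) :=
    (smooth_dt hg).continuous.comp (continuous_id.prodMk continuous_const)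
  rw [intervalIntegral.integral_eq_sub_of_hasDerivAt (fun t _ => slice_deriv hg t x)
    (hcont.intervalIntegrable _ _)]
  rw [eq_zero_of_notMem (z := (T, x)) hs (fun h => lt_irrefl T (show T < T from h.1))]
  simp

end H36.MHD
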