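import Pool.Agent.H36.MHD.Stage

/-! Limits of smooth approximate solutions are weak solutions. -/

open MeasureTheory Set Filter Topology
open scoped ContDiff ENNReal

noncomputable section

namespace H36.MHD

/-! ### Boundedly convergent sequences -/

section BC

variable {α : Type*} [MeasureSpace α]

/-- Measurable, uniformly bounded on `S` and pointwise convergent on `S`. -/
def BC (S : Set α) (F : ℕ → α → ℝ) (G : α → ℝ) : Prop :=
  (∀ n, AEStronglyMeasurable (F n) (volume.restrict S)) ∧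
  (∃ C, ∀ n, ∀ z ∈ S, |F n z| ≤ C) ∧
  ∀ z ∈ S, Tendsto (fun n => F n z) atTop (𝓝 (G z))

variable {S : Set α}

lemma BC.mul {F F' : ℕ → α → ℝ} {G G' : α → ℝ} (h : BC S F G) (h' : BC S F' G') :
    BC S (fun n z => F n z * F' n z) (fun z => G z * G' z) := by
  obtain ⟨a, ⟨C, hC⟩, b⟩ := h
  obtain ⟨a', ⟨C', hC'⟩, b'⟩ := h'
  refine ⟨fun n => (a n).mul (a' n), ⟨C * C', fun n z hz => ?_⟩, fun z hz => (b z hz).mul (b' z hz)⟩
  rw [abs_mul]
  have := hC n z hz
  exact mul_le_mul this (hC' n z hz) (abs_nonneg _) ((abs_nonneg _).trans this)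

lemma BC.add {F F' : ℕ → α → ℝ} {G G' : α → ℝ} (h : BC S F G) (h' : BC S F' G') :
    BC S (fun n z => F n z + F' n z) (fun z => G z + G' z) := by
  obtain ⟨a, ⟨C, hC⟩, b⟩ := h
  obtain ⟨a', ⟨C', hC'⟩, b'⟩ := h'
  refine ⟨fun n => (a n).add (a' n), ⟨C + C', fun n z hz => ?_⟩, fun z hz => (b z hz).add (b' z hz)⟩
  exact (abs_add_le _ _).trans (add_le_add (hC n z hz) (hC' n z hz))

lemma BC.neg {F : ℕ → α → ℝ} {G : α → ℝ} (h : BC S F G) :
    BC S (fun n z => - F n z) (fun z => - G z) := by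
  obtain ⟨a, ⟨C, hC⟩, b⟩ := h
  exact ⟨fun n => (a n).neg, ⟨C, fun n z hz => by rw [abs_neg]; exact hC n z hz⟩,
    fun z hz => (b z hz).neg⟩

lemma BC.sub {F F' : ℕ → α → ℝ} {G G' : α → ℝ} (h : BC S F G) (h' : BC S F' G') :
    BC S (fun n z => F n z - F' n z) (fun z => G z - G' z) := by
  simpa [sub_eq_add_neg] using h.add h'.neg

lemma BC.const {g : α → ℝ} (hm : AEStronglyMeasurable g (volume.restrict S))
    (hb : ∃ C, ∀ z ∈ S, |g z| ≤ C) : BC S (fun _ => g) g :=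
  ⟨fun _ => hm, ⟨hb.choose, fun _ z hz => hb.choose_spec z hz⟩, fun _ _ => tendsto_const_nhds⟩

lemma BC.sum {F : Fin 3 → ℕ → α → ℝ} {G : Fin 3 → α → ℝ} (h : ∀ i, BC S (F i) (G i)) :
    BC S (fun n z => ∑ i, F i n z) (fun z => ∑ i, G i z) := by
  simp only [Fin.sum_univ_three]
  exact ((h 0).add (h 1)).add (h 2)

lemma BC.tendsto (hS : MeasurableSet S) (hf : volume S < ⊤) {F : ℕ → α → ℝ} {G : α → ℝ}
    (h : BC S F G) :
    Tendsto (fun n => ∫ z in S, F n z) atTop (𝓝 (∫ z in S, G z)) := by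
  obtain ⟨a, ⟨C, hC⟩, b⟩ := h
  refine tendsto_integral_of_dominated_convergence (fun _ => C) a ?_ ?_ ?_
  · exact integrableOn_const hf.ne
  · intro n
    filter_upwards [ae_restrict_mem hS] with z hz using hC n z hz
  · filter_upwards [ae_restrict_mem hS] with z hz using b z hz

lemma BC.bound {F : ℕ → α → ℝ} {G : α → ℝ} (h : BC S F G) : ∃ C, ∀ z ∈ S, |G z| ≤ C := by
  obtain ⟨_, ⟨C, hC⟩, b⟩ := h
  exact ⟨C, fun z hz => le_of_tendsto (b z hz).abs (Eventually.of_forall fun n => hC n z hz)⟩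

end BC

/-! ### Calculus on `V3` -/

lemma pd_mul {g h : V3 → ℝ} (hg : ContDiff ℝ ∞ g) (hh : ContDiff ℝ ∞ h) (j : Fin 3)
    (x : V3) : pd j (fun y => g y * h y) x = g x * pd j h x + h x * pd j g x := by
  unfold pd
  rw [fderiv_fun_mul ((hg.differentiable (by simp)) x) ((hh.differentiable (by simp)) x)]
  simp

lemma smooth_pd {g : V3 → ℝ} (hg : ContDiff ℝ ∞ g) (j : Fin 3) : ContDiff ℝ ∞ (pd j g) := by
  unfold pd
  exact (hg.fderiv_right (m := ∞) (by simp)).clm_apply contDiff_const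

lemma tsupport_pd_subset (g : V3 → ℝ) (j : Fin 3) : tsupport (pd j g) ⊆ tsupport g := by
  refine closure_minimal ?_ (isClosed_tsupport g)
  intro z hz
  by_contra h
  apply hz
  unfold pd
  rw [show fderiv ℝ g z = 0 from by
    have : z ∉ tsupport (fderiv ℝ g) := fun h' => h (tsupport_fderiv_subset ℝ h')
    exact image_eq_zero_of_notMem_tsupport this]
  simp

lemma int_pd {g : V3 → ℝ} (hg : ContDiff ℝ ∞ g) (hc : HasCompactSupport g) (j : Fin 3) :
    ∫ x, pd j g x = 0 := by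
  have hcs : HasCompactSupport (pd j g) :=
    hc.mono' ((subset_tsupport _).trans (tsupport_pd_subset g j))
  have hint : Integrable (pd j g) := (smooth_pd hg j).continuous.integrable_of_hasCompactSupport hcs
  have key := integral_mul_fderiv_eq_neg_fderiv_mul_of_integrable (μ := (volume : Measure V3))
    (f := fun _ : V3 => (1 : ℝ)) (g := g) (v := Pi.single j 1)
    (by simp) (by simp only [one_mul]; exact hint)
    (by simpa using hg.continuous.integrable_of_hasCompactSupport hc)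
    (fun x _ => differentiableAt_const _) (fun x _ => (hg.differentiable (by simp)) x)
  simpa [pd] using key

lemma int_pd_on {Ω : Set V3} {g : V3 → ℝ} (hg : ContDiff ℝ ∞ g) (hc : HasCompactSupport g)
    (hs : tsupport g ⊆ Ω) (j : Fin 3) : ∫ x in Ω, pd j g x = 0 := by
  rw [← int_pd hg hc j]
  refine setIntegral_eq_integral_of_forall_compl_eq_zero fun x hx => ?_
  exact image_eq_zero_of_notMem_tsupport (fun h => hx (hs (tsupport_pd_subset g j h)))

/-! ### The data -/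

/-- Data with zero initial velocity and magnetic field, unit viscosity and conductivity. -/
def mkData (Ω : Set V3) (hΩ : IsOpen Ω) (hb : Bornology.IsBounded Ω) (T : ℝ) (ρ₀ : V3 → ℝ)
    (hρ : Continuous ρ₀) (hpos : ∃ c, 0 < c ∧ ∀ x ∈ Ω, c ≤ ρ₀ x) (f : ℝ × V3 → V3)
    (hf : Continuous f) : Data Ω T where
  ρ₀ := ρ₀
  u₀ := fun _ => 0
  B₀ := fun _ => 0
  f := fun t x => f (t, x)
  η := fun _ => 1
  σ := fun _ => 1
  ρ₀_meas := hρ.measurable
  ρ₀_bdd := by
    obtain ⟨C, hC⟩ := (hb.isCompact_closure.image hρ).isBounded.exists_norm_le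
    refine ⟨C, ?_⟩
    filter_upwards [ae_restrict_mem hΩ.measurableSet] with x hx
    exact hC _ ⟨x, subset_closure hx, rfl⟩
  ρ₀_pos := by
    obtain ⟨c, hc, h⟩ := hpos
    refine ⟨c, hc, ?_⟩
    filter_upwards [ae_restrict_mem hΩ.measurableSet] with x hx using h x hx
  u₀_mem := ⟨MemLp.zero', fun ψ _ => by simp⟩
  B₀_mem := ⟨MemLp.zero', fun ψ _ => by simp⟩
  f_meas := hf.measurable
  f_mem := by
    have hc : IsCompact (closure (cyl Ω T)) := by
      have : Bornology.IsBounded (cyl Ω T) := (Metric.isBounded_Ioo 0 T).prod hb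
      exact this.isCompact_closure
    obtain ⟨C, hC⟩ := (hc.image hf).isBounded.exists_norm_le
    have hfin : IsFiniteMeasure (volume.restrict (cyl Ω T)) :=
      ⟨by rw [Measure.restrict_apply_univ]
          exact (measure_mono subset_closure).trans_lt hc.measure_lt_top⟩
    refine MemLp.of_bound hf.aestronglyMeasurable C ?_
    filter_upwards [ae_restrict_mem (measurableSet_Ioo.prod hΩ.measurableSet)] with z hz
    exact hC _ ⟨z, subset_closure hz, rfl⟩
  η_cont := continuousOn_const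
  σ_cont := continuousOn_const
  η_bdd := ⟨1, 1, one_pos, fun _ _ => ⟨le_rfl, le_rfl⟩⟩
  σ_bdd := ⟨1, 1, one_pos, fun _ _ => ⟨le_rfl, le_rfl⟩⟩


/-- Uniformly bounded, pointwise convergent smooth approximate solutions. -/
structure StageSeq (Ω : Set V3) (T : ℝ) (K : Set V3) (ρn pn : ℕ → ℝ × V3 → ℝ)
    (un fn En : ℕ → ℝ × V3 → V3) (ρ : ℝ × V3 → ℝ) (u f : ℝ × V3 → V3)
    (G : ℝ × V3 → Fin 3 → Fin 3 → ℝ) (C : ℝ) : Prop where
  stage : ∀ n, IsStage Ω T (ρn n) (pn n) (un n) (fn n) (En n)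
  cont_E : ∀ n, Continuous (En n)
  supp : ∀ n z, z.2 ∉ K → un n z = 0
  div_free : ∀ n z, z.1 ∈ Icc 0 T → ∑ j, dx j (fun y => un n y j) z = 0
  init : ∀ n x, un n (0, x) = 0
  bdd_ρ : ∀ n, ∀ z ∈ Icc 0 T ×ˢ Ω, |ρn n z| ≤ C
  bdd_u : ∀ n, ∀ z ∈ Icc 0 T ×ˢ Ω, ∀ i, |un n z i| ≤ C
  bdd_du : ∀ n, ∀ z ∈ Icc 0 T ×ˢ Ω, ∀ i j, |dx j (fun y => un n y i) z| ≤ C
  bdd_f : ∀ n, ∀ z ∈ Icc 0 T ×ˢ Ω, ∀ i, |fn n z i| ≤ C
  bdd_E : ∀ n, ∀ z ∈ Icc 0 T ×ˢ Ω, ∀ i, |En n z i| ≤ C
  lim_ρ : ∀ z ∈ Icc 0 T ×ˢ Ω, Tendsto (fun n => ρn n z) atTop (𝓝 (ρ z))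
  lim_u : ∀ z ∈ Icc 0 T ×ˢ Ω, ∀ i, Tendsto (fun n => un n z i) atTop (𝓝 (u z i))
  lim_du : ∀ z ∈ Icc 0 T ×ˢ Ω, ∀ i j,
    Tendsto (fun n => dx j (fun y => un n y i) z) atTop (𝓝 (G z i j))
  lim_f : ∀ z ∈ Icc 0 T ×ˢ Ω, ∀ i, Tendsto (fun n => fn n z i) atTop (𝓝 (f z i))
  lim_E : ∀ z ∈ Icc 0 T ×ˢ Ω, ∀ i, Tendsto (fun n => En n z i) atTop (𝓝 0)
  cont_ρ : Continuous ρ
  cont_u : Continuous u
  cont_f : Continuous f
  cont_G : Continuous G

section main

variable {Ω : Set V3} {T : ℝ} {K : Set V3} {ρn pn : ℕ → ℝ × V3 → ℝ}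
  {un fn En : ℕ → ℝ × V3 → V3} {ρ : ℝ × V3 → ℝ} {u f : ℝ × V3 → V3}
  {G : ℝ × V3 → Fin 3 → Fin 3 → ℝ} {C : ℝ}

lemma cyl_sub : cyl Ω T ⊆ Icc 0 T ×ˢ Ω := prod_mono Ioo_subset_Icc_self le_rfl

lemma cyl_fin (hb : Bornology.IsBounded Ω) : volume (cyl Ω T) < ⊤ := by
  have : Bornology.IsBounded (cyl Ω T) := (Metric.isBounded_Ioo 0 T).prod hb
  exact (measure_mono subset_closure).trans_lt this.isCompact_closure.measure_lt_top

lemma om_fin (hb : Bornology.IsBounded Ω) : volume Ω < ⊤ :=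
  (measure_mono subset_closure).trans_lt hb.isCompact_closure.measure_lt_top

/-- a continuous function on `V3` is bounded on a bounded set -/
lemma bdd_on (hb : Bornology.IsBounded Ω) {g : V3 → ℝ} (hg : Continuous g) :
    ∃ C, ∀ x ∈ Ω, |g x| ≤ C := by
  obtain ⟨C, hC⟩ := (hb.isCompact_closure.image hg).isBounded.exists_norm_le
  exact ⟨C, fun x hx => hC _ ⟨x, subset_closure hx, rfl⟩⟩

lemma bdd_cs {g : ℝ × V3 → ℝ} (hg : Continuous g) (hc : HasCompactSupport g) :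
    ∃ C, ∀ z, |g z| ≤ C := by
  obtain ⟨C, hC⟩ := hg.bounded_above_of_compact_support hc
  exact ⟨C, hC⟩

variable (h : StageSeq Ω T K ρn pn un fn En ρ u f G C)

include h

lemma bc_ρ : BC (cyl Ω T) ρn ρ :=
  ⟨fun n => (h.stage n).smooth_ρ.continuous.aestronglyMeasurable,
    ⟨C, fun n z hz => h.bdd_ρ n z (cyl_sub hz)⟩, fun z hz => h.lim_ρ z (cyl_sub hz)⟩

lemma bc_u (i : Fin 3) : BC (cyl Ω T) (fun n z => un n z i) (fun z => u z i) :=
  ⟨fun n => ((h.stage n).smooth_u i).continuous.aestronglyMeasurable,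
    ⟨C, fun n z hz => h.bdd_u n z (cyl_sub hz) i⟩, fun z hz => h.lim_u z (cyl_sub hz) i⟩

lemma bc_du (i j : Fin 3) : BC (cyl Ω T) (fun n z => dx j (fun y => un n y i) z)
    (fun z => G z i j) :=
  ⟨fun n => (smooth_dx ((h.stage n).smooth_u i) j).continuous.aestronglyMeasurable,
    ⟨C, fun n z hz => h.bdd_du n z (cyl_sub hz) i j⟩, fun z hz => h.lim_du z (cyl_sub hz) i j⟩

lemma bc_f (i : Fin 3) : BC (cyl Ω T) (fun n z => fn n z i) (fun z => f z i) :=
  ⟨fun n => ((continuous_apply i).comp (h.stage n).cont_f).aestronglyMeasurable,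
    ⟨C, fun n z hz => h.bdd_f n z (cyl_sub hz) i⟩, fun z hz => h.lim_f z (cyl_sub hz) i⟩

lemma bc_E (i : Fin 3) : BC (cyl Ω T) (fun n z => En n z i) (fun _ => 0) :=
  ⟨fun n => ((continuous_apply i).comp (h.cont_E n)).aestronglyMeasurable,
    ⟨C, fun n z hz => h.bdd_E n z (cyl_sub hz) i⟩, fun z hz => h.lim_E z (cyl_sub hz) i⟩

lemma limit_transport (hΩ : IsOpen Ω) (hb : Bornology.IsBounded Ω) (hT : 0 < T) :
    WeakTransport Ω T (fun t x => ρ (t, x)) (fun t x => u (t, x)) := by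
  intro ψ hψ hc hs
  have c1 : BC (cyl Ω T) (fun _ => dt ψ) (dt ψ) :=
    BC.const (smooth_dt hψ).continuous.aestronglyMeasurable
      ((bdd_cs (smooth_dt hψ).continuous (hc.mono' ((subset_tsupport _).trans
        (tsupport_dt_subset _)))).imp fun C hC z _ => hC z)
  have c2 : ∀ j, BC (cyl Ω T) (fun _ => dx j ψ) (dx j ψ) := fun j =>
    BC.const (smooth_dx hψ j).continuous.aestronglyMeasurable
      ((bdd_cs (smooth_dx hψ j).continuous (hc.mono' ((subset_tsupport _).trans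
        (tsupport_dx_subset _ _)))).imp fun C hC z _ => hC z)
  have key := (((bc_ρ h).mul c1).add ((bc_ρ h).mul (BC.sum fun j => (bc_u h j).mul (c2 j)))).tendsto
    (measurableSet_Ioo.prod hΩ.measurableSet) (cyl_fin hb)
  have z : ∀ n, ∫ z in cyl Ω T, (ρn n z * dt ψ z + ρn n z * ∑ j, un n z j * dx j ψ z) = 0 :=
    fun n => stage_transport hΩ hT (h.stage n) hψ hc hs
  simp only [z] at key
  exact (tendsto_nhds_unique key tendsto_const_nhds)

lemma limit_momentum (hΩ : IsOpen Ω) (hb : Bornology.IsBounded Ω) (hT : 0 < T) (ρ₀ : V3 → ℝ) :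
    WeakMomentum Ω T (fun _ => 1) (fun t x => f (t, x)) ρ₀ (fun _ => 0)
      (fun t x => ρ (t, x)) (fun t x => u (t, x)) (fun t x => G (t, x))
      (fun _ _ => 0) (fun _ _ _ _ => 0) := by
  intro φ hφ hc hs hdiv
  have hΦ : ∀ i, ContDiff ℝ ∞ (fun z => φ z i) := fun i => contDiff_pi.1 hφ i
  have sΦ : ∀ i, tsupport (fun z => φ z i) ⊆ tsupport φ := fun i => tsupport_comp_subset φ i
  have c0 : ∀ i, BC (cyl Ω T) (fun _ z => φ z i) (fun z => φ z i) := fun i =>
    BC.const (hΦ i).continuous.aestronglyMeasurable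
      ((bdd_cs (hΦ i).continuous (hcs_of_subset hc (sΦ i))).imp fun C hC z _ => hC z)
  have c1 : ∀ i, BC (cyl Ω T) (fun _ => dt (fun y => φ y i)) (dt (fun y => φ y i)) := fun i =>
    BC.const (smooth_dt (hΦ i)).continuous.aestronglyMeasurable
      ((bdd_cs (smooth_dt (hΦ i)).continuous (hcs_of_subset hc
        ((tsupport_dt_subset _).trans (sΦ i)))).imp fun C hC z _ => hC z)
  have c2 : ∀ i j, BC (cyl Ω T) (fun _ => dx j (fun y => φ y i)) (dx j (fun y => φ y i)) :=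
    fun i j => BC.const (smooth_dx (hΦ i) j).continuous.aestronglyMeasurable
      ((bdd_cs (smooth_dx (hΦ i) j).continuous (hcs_of_subset hc
        ((tsupport_dx_subset _ _).trans (sΦ i)))).imp fun C hC z _ => hC z)
  have b1 := (bc_ρ h).mul (BC.sum fun i => (bc_u h i).mul (c1 i))
  have b2 := (bc_ρ h).mul (BC.sum fun i => BC.sum fun j =>
    ((bc_u h i).mul (bc_u h j)).mul (c2 i j))
  have b3 := BC.sum (S := cyl Ω T) fun i => BC.sum fun j =>
    ((bc_du h i j).add (bc_du h j i)).mul (c2 i j)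
  have b4 := (bc_ρ h).mul (BC.sum fun i => (bc_f h i).mul (c0 i))
  have b5 := BC.sum fun i => (bc_E h i).mul (c0 i)
  have key := ((((b1.add b2).sub b3).add b4).add b5).tendsto
    (measurableSet_Ioo.prod hΩ.measurableSet) (cyl_fin hb)
  have z : ∀ n, ∫ z in cyl Ω T,
      (ρn n z * ∑ i, un n z i * dt (fun y => φ y i) z
        + ρn n z * ∑ i, ∑ j, un n z i * un n z j * dx j (fun y => φ y i) z
        - ∑ i, ∑ j, (dx j (fun y => un n y i) z + dx i (fun y => un n y j) z)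
          * dx j (fun y => φ y i) z
        + ρn n z * ∑ i, fn n z i * φ z i + ∑ i, En n z i * φ z i) = 0 := by
    intro n
    have := stage_momentum hΩ hT (h.stage n) hφ hc hs hdiv
    simpa [h.init n, dot] using this
  simp only [z] at key
  have key2 := tendsto_nhds_unique key tendsto_const_nhds
  simp only [dot, Pi.zero_apply, zero_mul, Finset.sum_const_zero, mul_zero, integral_zero,
    add_zero]
  rw [← key2]
  refine integral_congr_ae (Eventually.of_forall fun z => ?_)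
  simp [cross, curlOf, Fin.sum_univ_three]

end main

end H36.MHD
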