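import Pool.Agent.H36.MHD.Calc

/-! Integral identities for smooth approximate solutions. -/

open MeasureTheory Set Filter Topology
open scoped ContDiff ENNReal

noncomputable section

namespace H36.MHD

/-- A smooth approximate solution on the cylinder `(0,T) × Ω`, with error `E`. -/
structure IsStage (Ω : Set V3) (T : ℝ) (ρ p : ℝ × V3 → ℝ) (u f E : ℝ × V3 → V3) : Prop where
  smooth_ρ : ContDiff ℝ ∞ ρ
  smooth_p : ContDiff ℝ ∞ p
  smooth_u : ∀ i, ContDiff ℝ ∞ (fun z => u z i)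
  cont_f : Continuous f
  transport : ∀ z ∈ cyl Ω T, dt ρ z + ∑ j, u z j * dx j ρ z = 0
  div_free : ∀ z ∈ cyl Ω T, ∑ j, dx j (fun y => u y j) z = 0
  momentum : ∀ z ∈ cyl Ω T, ∀ i,
    ρ z * (dt (fun y => u y i) z + (∑ j, u z j * dx j (fun y => u y i) z) - f z i)
      - (∑ j, dx j (dx j (fun y => u y i)) z) + dx i p z = E z i

lemma tsupport_mul_subset_right' {g h : ℝ × V3 → ℝ} {S : Set (ℝ × V3)} (hs : tsupport h ⊆ S) :
    tsupport (fun z => g z * h z) ⊆ S :=
  (tsupport_mul_subset_right (f := g) (g := h)).trans hs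

lemma hcs_of_subset {g : ℝ × V3 → ℝ} {φ : ℝ × V3 → V3} (hc : HasCompactSupport φ)
    (h : tsupport g ⊆ tsupport φ) : HasCompactSupport g :=
  hc.mono' ((subset_tsupport _).trans h)

lemma tsupport_comp_subset (φ : ℝ × V3 → V3) (i : Fin 3) :
    tsupport (fun z => φ z i) ⊆ tsupport φ := by
  refine closure_mono ?_
  intro z hz h
  apply hz
  show φ z i = 0
  rw [h]; rfl

lemma tsupport_sum_subset {g : Fin 3 → ℝ × V3 → ℝ} {S : Set (ℝ × V3)} (hS : IsClosed S)
    (h : ∀ i, tsupport (g i) ⊆ S) : tsupport (fun z => ∑ i, g i z) ⊆ S := by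
  refine closure_minimal ?_ hS
  intro z hz
  by_contra hz'
  apply hz
  show ∑ i, g i z = 0
  exact Finset.sum_eq_zero fun i _ => eq_zero_of_notMem (h i) hz'

lemma stage_transport {Ω : Set V3} (hΩ : IsOpen Ω) {T : ℝ} (hT : 0 < T) {ρ p : ℝ × V3 → ℝ}
    {u f E : ℝ × V3 → V3} (h : IsStage Ω T ρ p u f E) {ψ : ℝ × V3 → ℝ} (hψ : ContDiff ℝ ∞ ψ)
    (hc : HasCompactSupport ψ) (hs : tsupport ψ ⊆ cyl Ω T) :
    ∫ z in cyl Ω T, (ρ z * dt ψ z + ρ z * ∑ j, u z j * dx j ψ z) = 0 := by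
  have hm : MeasurableSet (cyl Ω T) := measurableSet_Ioo.prod hΩ.measurableSet
  have hT1 : ContDiff ℝ ∞ (fun z => ρ z * ψ z) := h.smooth_ρ.mul hψ
  have hT2 : ∀ j, ContDiff ℝ ∞ (fun z => (ρ z * u z j) * ψ z) := fun j =>
    (h.smooth_ρ.mul (h.smooth_u j)).mul hψ
  have s1 : tsupport (fun z => ρ z * ψ z) ⊆ tsupport ψ := tsupport_mul_subset_right' le_rfl
  have s2 : ∀ j, tsupport (fun z => (ρ z * u z j) * ψ z) ⊆ tsupport ψ := fun j =>
    tsupport_mul_subset_right' le_rfl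
  have c1 : HasCompactSupport (fun z => ρ z * ψ z) := hc.mono' ((subset_tsupport _).trans s1)
  have c2 : ∀ j, HasCompactSupport (fun z => (ρ z * u z j) * ψ z) := fun j =>
    hc.mono' ((subset_tsupport _).trans (s2 j))
  have e : ∀ z ∈ cyl Ω T, ρ z * dt ψ z + ρ z * ∑ j, u z j * dx j ψ z =
      dt (fun y => ρ y * ψ y) z + ∑ j, dx j (fun y => (ρ y * u y j) * ψ y) z := by
    intro z hz
    have h1 := h.transport z hz
    have h2 := h.div_free z hz
    rw [dt_mul h.smooth_ρ hψ]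
    simp only [fun j => dx_mul (h.smooth_ρ.mul (h.smooth_u j)) hψ j z,
      fun j => dx_mul h.smooth_ρ (h.smooth_u j) j z]
    simp only [Fin.sum_univ_three] at h1 h2 ⊢
    linear_combination (-ψ z) * h1 - (ψ z * ρ z) * h2
  rw [setIntegral_congr_fun hm e]
  have i1 : IntegrableOn (dt (fun y => ρ y * ψ y)) (cyl Ω T) :=
    ((smooth_dt hT1).continuous.integrable_of_hasCompactSupport
      (c1.mono' ((subset_tsupport _).trans (tsupport_dt_subset _)))).integrableOn
  have i2 : ∀ j, IntegrableOn (dx j (fun y => (ρ y * u y j) * ψ y)) (cyl Ω T) := fun j =>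
    ((smooth_dx (hT2 j) j).continuous.integrable_of_hasCompactSupport
      ((c2 j).mono' ((subset_tsupport _).trans (tsupport_dx_subset _ _)))).integrableOn
  rw [integral_add i1 (integrable_finsetSum _ fun j _ => i2 j), integral_finsetSum _ fun j _ => i2 j]
  rw [int_dt hT hT1 c1 (s1.trans (hs.trans (prod_mono (fun t ht => ht.2) le_rfl)))]
  have z2 : ∀ j, ∫ z in cyl Ω T, dx j (fun y => (ρ y * u y j) * ψ y) z = 0 := fun j =>
    int_dx (hT2 j) (c2 j) ((s2 j).trans (hs.trans (prod_mono (subset_univ _) le_rfl))) j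
  have z1 : ∀ x, ρ (0, x) * ψ (0, x) = 0 := fun x => by
    rw [eq_zero_of_notMem (z := (0, x)) hs (fun hh => lt_irrefl (0 : ℝ) hh.1.1), mul_zero]
  simp [z1, z2]

lemma stage_momentum {Ω : Set V3} (hΩ : IsOpen Ω) {T : ℝ} (hT : 0 < T) {ρ p : ℝ × V3 → ℝ}
    {u f E : ℝ × V3 → V3} (h : IsStage Ω T ρ p u f E) {φ : ℝ × V3 → V3} (hφ : ContDiff ℝ ∞ φ)
    (hc : HasCompactSupport φ) (hs : tsupport φ ⊆ Iio T ×ˢ Ω)
    (hdiv : ∀ z : ℝ × V3, 0 ≤ z.1 → ∑ j, dx j (fun y => φ y j) z = 0) :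
    (∫ z in cyl Ω T,
      (ρ z * ∑ i, u z i * dt (fun y => φ y i) z
        + ρ z * ∑ i, ∑ j, u z i * u z j * dx j (fun y => φ y i) z
        - ∑ i, ∑ j, (dx j (fun y => u y i) z + dx i (fun y => u y j) z) * dx j (fun y => φ y i) z
        + ρ z * dot (f z) (φ z) + dot (E z) (φ z)))
      + (∫ x in Ω, ρ (0, x) * dot (u (0, x)) (φ (0, x))) = 0 := by
  have hm : MeasurableSet (cyl Ω T) := measurableSet_Ioo.prod hΩ.measurableSet
  have hΦ : ∀ i, ContDiff ℝ ∞ (fun z => φ z i) := fun i => contDiff_pi.1 hφ i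
  have sΦ : ∀ i, tsupport (fun z => φ z i) ⊆ tsupport φ := fun i => tsupport_comp_subset φ i
  have cl := isClosed_tsupport φ
  -- the five divergence terms
  set G1 : ℝ × V3 → ℝ := fun z => ρ z * ∑ i, u z i * φ z i with hG1
  set G2 : Fin 3 → ℝ × V3 → ℝ := fun j z => (ρ z * u z j) * ∑ i, u z i * φ z i with hG2
  set G3 : Fin 3 → ℝ × V3 → ℝ := fun j z => ∑ i, dx j (fun y => u y i) z * φ z i with hG3
  set G4 : Fin 3 → ℝ × V3 → ℝ := fun i z => ∑ j, u z j * dx j (fun y => φ y i) z with hG4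
  set G5 : Fin 3 → ℝ × V3 → ℝ := fun i z => p z * φ z i with hG5
  have sm0 : ContDiff ℝ ∞ (fun z => ∑ i, u z i * φ z i) :=
    ContDiff.sum fun i _ => (h.smooth_u i).mul (hΦ i)
  have sm1 : ContDiff ℝ ∞ G1 := h.smooth_ρ.mul sm0
  have sm2 : ∀ j, ContDiff ℝ ∞ (G2 j) := fun j => (h.smooth_ρ.mul (h.smooth_u j)).mul sm0
  have sm3 : ∀ j, ContDiff ℝ ∞ (G3 j) := fun j =>
    ContDiff.sum fun i _ => (smooth_dx (h.smooth_u i) j).mul (hΦ i)
  have sm4 : ∀ i, ContDiff ℝ ∞ (G4 i) := fun i =>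
    ContDiff.sum fun j _ => (h.smooth_u j).mul (smooth_dx (hΦ i) j)
  have sm5 : ∀ i, ContDiff ℝ ∞ (G5 i) := fun i => h.smooth_p.mul (hΦ i)
  have t0 : tsupport (fun z => ∑ i, u z i * φ z i) ⊆ tsupport φ :=
    tsupport_sum_subset cl fun i => tsupport_mul_subset_right' (sΦ i)
  have t1 : tsupport G1 ⊆ tsupport φ := tsupport_mul_subset_right' t0
  have t2 : ∀ j, tsupport (G2 j) ⊆ tsupport φ := fun j => tsupport_mul_subset_right' t0
  have t3 : ∀ j, tsupport (G3 j) ⊆ tsupport φ := fun j =>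
    tsupport_sum_subset cl fun i => tsupport_mul_subset_right' (sΦ i)
  have t4 : ∀ i, tsupport (G4 i) ⊆ tsupport φ := fun i =>
    tsupport_sum_subset cl fun j => tsupport_mul_subset_right'
      ((tsupport_dx_subset _ j).trans (sΦ i))
  have t5 : ∀ i, tsupport (G5 i) ⊆ tsupport φ := fun i => tsupport_mul_subset_right' (sΦ i)
  -- the divergence of the test field and its derivatives
  have hdd : ∀ z ∈ cyl Ω T, ∀ j, ∑ i, dx i (dx j (fun y => φ y i)) z = 0 := by
    intro z hz j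
    have e1 : ∑ i, dx i (dx j (fun y => φ y i)) z = dx j (fun w => ∑ i, dx i (fun y => φ y i) w) z := by
      rw [dx_sum (fun i => smooth_dx (hΦ i) i) j z]
      exact Finset.sum_congr rfl fun i _ => dx_comm (hΦ i) i j z
    rw [e1]
    have e2 : (fun w => ∑ i, dx i (fun y => φ y i) w) =ᶠ[𝓝 z] fun _ => 0 := by
      have : {w : ℝ × V3 | 0 < w.1} ∈ 𝓝 z :=
        (isOpen_lt continuous_const continuous_fst).mem_nhds hz.1.1
      filter_upwards [this] with w hw using hdiv w (le_of_lt hw)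
    unfold dx at e2 ⊢
    rw [e2.fderiv_eq]
    simp
  have e : ∀ z ∈ cyl Ω T,
      (ρ z * ∑ i, u z i * dt (fun y => φ y i) z
        + ρ z * ∑ i, ∑ j, u z i * u z j * dx j (fun y => φ y i) z
        - ∑ i, ∑ j, (dx j (fun y => u y i) z + dx i (fun y => u y j) z) * dx j (fun y => φ y i) z
        + ρ z * dot (f z) (φ z) + dot (E z) (φ z)) =
      dt G1 z + ∑ j, dx j (G2 j) z - ∑ j, dx j (G3 j) z - ∑ i, dx i (G4 i) z
        + ∑ i, dx i (G5 i) z := by
    intro z hz
    have h1 := h.transport z hz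
    have h2 := h.div_free z hz
    have h3 := h.momentum z hz
    have h4 := hdiv z hz.1.1.le
    have h5 := hdd z hz
    have d0 : ∀ j, dx j (fun y => ∑ i, u y i * φ y i) z =
        ∑ i, (u z i * dx j (fun y => φ y i) z + φ z i * dx j (fun y => u y i) z) := fun j => by
      rw [dx_sum (fun i => (h.smooth_u i).mul (hΦ i)) j z]
      exact Finset.sum_congr rfl fun i _ => dx_mul (h.smooth_u i) (hΦ i) j z
    have d1 : dt G1 z = ρ z * ∑ i, (u z i * dt (fun y => φ y i) z + φ z i * dt (fun y => u y i) z)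
        + (∑ i, u z i * φ z i) * dt ρ z := by
      rw [hG1, dt_mul h.smooth_ρ sm0, dt_sum (fun i => (h.smooth_u i).mul (hΦ i)) z]
      congr 2
      exact Finset.sum_congr rfl fun i _ => dt_mul (h.smooth_u i) (hΦ i) z
    have d2 : ∀ j, dx j (G2 j) z = (ρ z * u z j) *
        (∑ i, (u z i * dx j (fun y => φ y i) z + φ z i * dx j (fun y => u y i) z))
        + (∑ i, u z i * φ z i) * (ρ z * dx j (fun y => u y j) z + u z j * dx j ρ z) := fun j => by
      rw [hG2]
      show dx j (fun z => (ρ z * u z j) * ∑ i, u z i * φ z i) z = _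
      rw [dx_mul (h.smooth_ρ.mul (h.smooth_u j)) sm0, d0, dx_mul h.smooth_ρ (h.smooth_u j)]
    have d3 : ∀ j, dx j (G3 j) z = ∑ i, (dx j (fun y => u y i) z * dx j (fun y => φ y i) z
        + φ z i * dx j (dx j (fun y => u y i)) z) := fun j => by
      rw [hG3]
      show dx j (fun z => ∑ i, dx j (fun y => u y i) z * φ z i) z = _
      rw [dx_sum (fun i => (smooth_dx (h.smooth_u i) j).mul (hΦ i)) j z]
      exact Finset.sum_congr rfl fun i _ => dx_mul (smooth_dx (h.smooth_u i) j) (hΦ i) j z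
    have d4 : ∀ i, dx i (G4 i) z = ∑ j, (u z j * dx i (dx j (fun y => φ y i)) z
        + dx j (fun y => φ y i) z * dx i (fun y => u y j) z) := fun i => by
      rw [hG4]
      show dx i (fun z => ∑ j, u z j * dx j (fun y => φ y i) z) z = _
      rw [dx_sum (fun j => (h.smooth_u j).mul (smooth_dx (hΦ i) j)) i z]
      exact Finset.sum_congr rfl fun j _ => dx_mul (h.smooth_u j) (smooth_dx (hΦ i) j) i z
    have d5 : ∀ i, dx i (G5 i) z = p z * dx i (fun y => φ y i) z + φ z i * dx i p z := fun i => by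
      rw [hG5]
      exact dx_mul h.smooth_p (hΦ i) i z
    rw [d1]
    simp only [d2, d3, d4, d5]
    have h30 := h3 0
    have h31 := h3 1
    have h32 := h3 2
    have h50 := h5 0
    have h51 := h5 1
    have h52 := h5 2
    simp only [Fin.sum_univ_three, dot] at h1 h2 h30 h31 h32 h4 h50 h51 h52 ⊢
    linear_combination (-(u z 0 * φ z 0 + u z 1 * φ z 1 + u z 2 * φ z 2)) * h1
      - (ρ z * (u z 0 * φ z 0 + u z 1 * φ z 1 + u z 2 * φ z 2)) * h2
      - φ z 0 * h30 - φ z 1 * h31 - φ z 2 * h32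
      + u z 0 * h50 + u z 1 * h51 + u z 2 * h52 - p z * h4
  rw [setIntegral_congr_fun hm e]
  have icst : ∀ {g : ℝ × V3 → ℝ}, ContDiff ℝ ∞ g → tsupport g ⊆ tsupport φ →
      IntegrableOn (dt g) (cyl Ω T) := fun {g} hg hg' =>
    ((smooth_dt hg).continuous.integrable_of_hasCompactSupport
      (hcs_of_subset hc ((tsupport_dt_subset g).trans hg'))).integrableOn
  have icsx : ∀ {g : ℝ × V3 → ℝ} (j : Fin 3), ContDiff ℝ ∞ g → tsupport g ⊆ tsupport φ →
      IntegrableOn (dx j g) (cyl Ω T) := fun {g} j hg hg' =>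
    ((smooth_dx hg j).continuous.integrable_of_hasCompactSupport
      (hcs_of_subset hc ((tsupport_dx_subset g j).trans hg'))).integrableOn
  have zx : ∀ {g : ℝ × V3 → ℝ} (j : Fin 3), ContDiff ℝ ∞ g → tsupport g ⊆ tsupport φ →
      ∫ z in cyl Ω T, dx j g z = 0 := fun {g} j hg hg' =>
    int_dx hg (hcs_of_subset hc hg') (hg'.trans (hs.trans (prod_mono (subset_univ _) le_rfl))) j
  have j1 := icst sm1 t1
  have j2 := integrable_finsetSum (μ := volume.restrict (cyl Ω T)) Finset.univ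
    fun j _ => icsx j (sm2 j) (t2 j)
  have j3 := integrable_finsetSum (μ := volume.restrict (cyl Ω T)) Finset.univ
    fun j _ => icsx j (sm3 j) (t3 j)
  have j4 := integrable_finsetSum (μ := volume.restrict (cyl Ω T)) Finset.univ
    fun i _ => icsx i (sm4 i) (t4 i)
  have j5 := integrable_finsetSum (μ := volume.restrict (cyl Ω T)) Finset.univ
    fun i _ => icsx i (sm5 i) (t5 i)
  have k12 : Integrable (fun z => dt G1 z + ∑ j, dx j (G2 j) z) (volume.restrict (cyl Ω T)) :=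
    j1.add j2
  have k13 : Integrable (fun z => dt G1 z + ∑ j, dx j (G2 j) z - ∑ j, dx j (G3 j) z)
      (volume.restrict (cyl Ω T)) := k12.sub j3
  have k14 : Integrable (fun z => dt G1 z + ∑ j, dx j (G2 j) z - ∑ j, dx j (G3 j) z
      - ∑ i, dx i (G4 i) z) (volume.restrict (cyl Ω T)) := k13.sub j4
  rw [integral_add k14 j5, integral_sub k13 j4,
    integral_sub k12 j3, integral_add j1 j2,
    integral_finsetSum _ fun j _ => icsx j (sm2 j) (t2 j),
    integral_finsetSum _ fun j _ => icsx j (sm3 j) (t3 j),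
    integral_finsetSum _ fun i _ => icsx i (sm4 i) (t4 i),
    integral_finsetSum _ fun i _ => icsx i (sm5 i) (t5 i),
    int_dt hT sm1 (hcs_of_subset hc t1) (t1.trans hs)]
  simp only [fun j => zx j (sm2 j) (t2 j), fun j => zx j (sm3 j) (t3 j),
    fun j => zx j (sm4 j) (t4 j), fun j => zx j (sm5 j) (t5 j)]
  simp [hG1, dot]

end H36.MHD
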